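import Pool.Agent.H500.ME.Stm2

set_option autoImplicit false
set_option linter.unusedSectionVars false

/-!
# Project ME, part E4: purity gives the weights
-/

namespace Pool.Agent.H405.ME.PUR

open NumberField IsDedekindDomain Filter Topology Polynomial
open Pool.Agent.W401.Cheb (GK IsFrob IsInert dens)
open Pool.Agent.H500.HC (InRay QBar ZBar jz)
open Pool.Agent.H500.SV (Above Fld)
open Pool.Agent.H500.ZO (PotHecke SemiS)
open Pool.Agent.H500.ED Pool.Agent.H500.ME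
open Pool.Agent.Q92.AR (Dv Ray prin)

theorem not_unit (L : Type) [Field L] [NumberField L] {p : ℕ} (hp : p.Prime) :
    ¬ IsUnit ((p : ℕ) : 𝓞 L) := by
  intro hu
  have h1 := hu.map (Algebra.norm ℤ)
  have h2 : ((p : ℕ) : 𝓞 L) = algebraMap ℤ (𝓞 L) (p : ℤ) := by simp
  rw [h2, Algebra.norm_algebraMap] at h1
  have h3 : Module.finrank ℤ (𝓞 L) ≠ 0 := Module.finrank_pos.ne'
  have h4 := (isUnit_pow_iff h3).1 h1
  rw [Int.isUnit_iff_natAbs_eq, Int.natAbs_natCast] at h4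
  exact hp.one_lt.ne' h4

theorem inf_pl (L : Type) [Field L] [NumberField L] : Infinite (HeightOneSpectrum (𝓞 L)) := by
  have h : ∀ p : Nat.Primes, ∃ w : HeightOneSpectrum (𝓞 L), ((p : ℕ) : 𝓞 L) ∈ w.asIdeal := by
    intro p
    obtain ⟨m, hm, hpm⟩ := exists_max_ideal_of_mem_nonunits (mem_nonunits_iff.2 (not_unit L p.2))
    refine ⟨⟨m, hm.isPrime, ?_⟩, hpm⟩
    rintro rfl
    rw [Ideal.mem_bot, Nat.cast_eq_zero] at hpm
    exact p.2.ne_zero hpm
  choose w hw using h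
  refine Infinite.of_injective w fun p q hpq => ?_
  by_contra hne
  have hcop : Nat.Coprime p q := (Nat.coprime_primes p.2 q.2).2 fun h => hne (Subtype.ext h)
  have h1 : IsCoprime (((p : ℕ) : ℤ)) (((q : ℕ) : ℤ)) := Nat.isCoprime_iff_coprime.2 hcop
  have h2 := h1.map (algebraMap ℤ (𝓞 L))
  obtain ⟨a, b, hab⟩ := h2
  apply (w p).isPrime.ne_top
  rw [Ideal.eq_top_iff_one, ← hab]
  refine (w p).asIdeal.add_mem ((w p).asIdeal.mul_mem_left _ ?_) ((w p).asIdeal.mul_mem_left _ ?_)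
  · have := hw p
    simpa using this
  · have := hw q
    rw [← hpq] at this
    simpa using this

theorem ext_emb {E : Type} [Field E] [NumberField E] (j : E →+* QBar) (τ0 : E →+* ℂ) :
    ∃ τ : QBar →+* ℂ, τ.comp j = τ0 := by
  let _ : Algebra E QBar := j.toAlgebra
  let _ : Algebra E ℂ := τ0.toAlgebra
  have hE : Algebra.IsAlgebraic E QBar := by
    refine ⟨fun x => ?_⟩
    obtain ⟨q, hq0, hq⟩ := (AlgebraicClosure.isAlgebraic ℚ).isAlgebraic x
    refine ⟨q.map (algebraMap ℚ E), (Polynomial.map_ne_zero_iff (algebraMap ℚ E).injective).2 hq0, ?_⟩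
    rw [aeval_def] at hq ⊢
    rw [eval₂_map]
    exact (congrArg (fun g : ℚ →+* QBar => eval₂ g x q) (Subsingleton.elim _ _)).trans hq
  let τ : QBar →ₐ[E] ℂ := IsAlgClosed.lift
  exact ⟨τ.toRingHom, RingHom.ext fun x => τ.commutes x⟩

theorem fin_pl (L : Type) [Field L] [NumberField L] {N : ℕ} (hN : N ≠ 0) :
    {w : HeightOneSpectrum (𝓞 L) | (N : 𝓞 L) ∈ w.asIdeal}.Finite := by
  have h0 : Ideal.span {(N : 𝓞 L)} ≠ 0 := by
    rw [Ne, Ideal.zero_eq_bot, Ideal.span_singleton_eq_bot]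
    exact_mod_cast hN
  refine (Ideal.finite_factors h0).subset fun w hw => ?_
  exact Ideal.dvd_span_singleton.2 hw

theorem main : S_WT → S_PUR := by
  intro hWT K E _ _ _ _ j N n P U L _ _ _ ι e t ψ hN hPH w0 τ0 hroots i M φ hM hφ hval
  obtain ⟨m, hm, -⟩ := hWT L M (fun σ => (t i σ : ℤ)) φ hM hφ
  obtain ⟨τ, hτ⟩ := ext_emb j τ0
  have hinf := inf_pl L
  have hcof : ∀ᶠ w : HeightOneSpectrum (𝓞 L) in cofinite, (N : 𝓞 L) ∉ w.asIdeal := by
    have := (fin_pl L (show N ≠ 0 by omega)).compl_mem_cofinite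
    exact this
  obtain ⟨w, hw1, hwN⟩ := ((hm τ).and hcof).exists
  have hv0 : w.asIdeal.comap (algebraMap (𝓞 K) (𝓞 L)) ≠ ⊥ := by
    intro h
    exact w.ne_bot (Ideal.eq_bot_of_comap_eq_bot h)
  let v : HeightOneSpectrum (𝓞 K) :=
    ⟨w.asIdeal.comap (algebraMap (𝓞 K) (𝓞 L)), w.isPrime.comap _, hv0⟩
  have hab : Above w v := rfl
  have hvN : (N : 𝓞 K) ∉ v.asIdeal := by
    intro h
    have h1 : algebraMap (𝓞 K) (𝓞 L) (N : 𝓞 K) ∈ w.asIdeal := h
    rw [map_natCast] at h1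
    exact hwN h1
  obtain ⟨f, hf, -⟩ := hPH.fld.frob v w hab
  obtain ⟨hmon, hdeg⟩ := hPH.monic v hvN
  obtain ⟨y, hy⟩ := Pool.Agent.H500.HC.zbar_split ((P v).map (jz j)) (hmon.map _)
  have hd : ((P v).map (jz j)).natDegree = n := by rw [hmon.natDegree_map, hdeg]
  let α : Fin n → ZBar := fun k => y (Fin.cast hd.symm k)
  have hα : (P v).map (jz j) = ∏ k, (X - Polynomial.C (α k)) := by
    conv_lhs => rw [hy]
    exact Fintype.prod_equiv (finCongr hd) _ _ fun k => rfl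
  have h1 := hPH.eq v w f α hvN hab hf hα
  have h2 := congrArg (Polynomial.eval (ψ i w.asIdeal)) h1
  have hR : ∏ k, eval (ψ i w.asIdeal) (X - Polynomial.C (ψ k w.asIdeal)) = 0 :=
    Finset.prod_eq_zero (Finset.mem_univ i) (by simp)
  rw [eval_prod, eval_prod, hR] at h2
  obtain ⟨k, -, hk⟩ := Finset.prod_eq_zero_iff.1 h2
  rw [eval_sub, eval_X, eval_C, sub_eq_zero] at hk
  have hhom : (τ.comp (algebraMap ZBar QBar)).comp (jz j) = τ0.comp (algebraMap (𝓞 E) E) := by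
    rw [← hτ]
    rfl
  have hroot : τ (α k : QBar) ∈ ((P v).map (τ0.comp (algebraMap (𝓞 E) E))).roots := by
    rw [mem_roots (hmon.map _).ne_zero, IsRoot, ← hhom, ← Polynomial.map_map, hα,
      Polynomial.map_prod, eval_prod]
    exact Finset.prod_eq_zero (Finset.mem_univ k) (by simp)
  have h3 := hroots v hvN _ hroot
  have hb0 : (0 : ℝ) < (Ideal.absNorm v.asIdeal : ℝ) := by
    exact_mod_cast Nat.pos_of_ne_zero fun h => v.ne_bot (Ideal.absNorm_eq_zero_iff.1 h)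
  have h4 : ‖τ (at1 φ w)‖ ^ 2 = (Ideal.absNorm w.asIdeal : ℝ) ^ w0 := by
    rw [hval w hwN, hk]
    have e1 : ((α k ^ f : ZBar) : QBar) = (α k : QBar) ^ f := rfl
    rw [e1, map_pow, norm_pow, h3, hf, Nat.cast_pow, ← Real.rpow_natCast, ← Real.rpow_natCast,
      ← Real.rpow_mul hb0.le, ← Real.rpow_mul hb0.le, ← Real.rpow_intCast, ← Real.rpow_natCast,
      ← Real.rpow_mul hb0.le]
    congr 1
    push_cast
    ring
  have hb1 : (1 : ℝ) < (Ideal.absNorm w.asIdeal : ℝ) := by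
    have h5 : Ideal.absNorm w.asIdeal ≠ 0 := fun h => w.ne_bot (Ideal.absNorm_eq_zero_iff.1 h)
    have h6 : Ideal.absNorm w.asIdeal ≠ 1 := fun h => w.isPrime.ne_top (Ideal.absNorm_eq_one_iff.1 h)
    have : 1 < Ideal.absNorm w.asIdeal := by omega
    exact_mod_cast this
  have h7 : m = w0 := by
    rw [hw1] at h4
    exact zpow_right_injective₀ (by linarith) hb1.ne' h4
  rw [← h7]
  exact hm

end Pool.Agent.H405.ME.PUR
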